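import Pool.Agent.Lib.MP_9736fa_co.Defs

/-!
# The certificate

For a digraph in which every vertex reaches `t`, whose non-terminal vertices are split into `A`
(player one) and its complement (player two), we construct a successor edge `nxt v` for each vertex
and potentials `Θ` (for `r2`), `D` (the `r1`-distance along `nxt`) and `L` (the `r2`-length along
`nxt`). The construction settles one vertex at a time, as in Dijkstra's algorithm.
-/

namespace Pool.Agent.Lib.MP_9736fa_co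

open Function

variable {V E : Type*}

/-- State of the construction: the set `F` of settled vertices with the data on it. -/
structure St (src tgt : E → V) (A : Set V) (t : V) (r1 r2 : E → ℝ) (F : Set V)
    (nxt : V → E) (Θ D L : V → ℝ) : Prop where
  tF : t ∈ F
  Dt : D t = 0
  Lt : L t = 0
  s1 : ∀ v ∈ F, v ≠ t → src (nxt v) = v ∧ tgt (nxt v) ∈ F ∧ D v = r1 (nxt v) + D (tgt (nxt v)) ∧
    L v = r2 (nxt v) + L (tgt (nxt v)) ∧ r2 (nxt v) + Θ (tgt (nxt v)) ≤ Θ v
  s2 : ∀ e, src e ∈ F → src e ∉ A → tgt e ∈ F → Θ (src e) ≤ r2 e + Θ (tgt e)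
  s3 : ∀ e, src e ∈ F → src e ∈ A → tgt e ∈ F → D (src e) ≤ r1 e + D (tgt e)
  s4 : ∀ u ∈ F, u ∈ A → (∃ e, src e = u ∧ tgt e ∈ F ∧ Θ u ≤ r2 e + Θ (tgt e)) ∨
    (∃ e, src e = u ∧ tgt e ∉ F)
  s5a : ∀ e, src e ∉ F → src e ∉ A → tgt e ∈ F → ∀ v ∈ F, Θ v ≤ r2 e + Θ (tgt e)
  s5b : ∀ u, u ∉ F → u ∈ A → (∀ e, src e = u → tgt e ∈ F) → ∀ v ∈ F,
    ∃ e, src e = u ∧ Θ v ≤ r2 e + Θ (tgt e)
  s6 : ∀ u ∈ F, u ∈ A → (∃ e, src e = u ∧ tgt e ∉ F) → ∀ e', src e' ∉ F → tgt e' ∈ F →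
    D u ≤ r1 e' + D (tgt e')

/-- Adding one vertex. -/
theorem St.add [DecidableEq V] {src tgt : E → V} {A : Set V} {t : V} {r1 r2 : E → ℝ} {F : Set V}
    {nxt : V → E} {Θ D L : V → ℝ} (h1 : ∀ e, 0 < r1 e) (h2 : ∀ e, 0 < r2 e)
    (S : St src tgt A t r1 r2 F nxt Θ D L) (v : V) (e1 : E) (c : ℝ)
    (hv : v ∉ F) (hs : src e1 = v) (ht : tgt e1 ∈ F)
    (H1 : r2 e1 + Θ (tgt e1) ≤ c)
    (H2 : v ∉ A → ∀ e, src e = v → tgt e ∈ F → c ≤ r2 e + Θ (tgt e))
    (H3 : v ∈ A → ∀ e, src e = v → tgt e ∈ F → r1 e1 + D (tgt e1) ≤ r1 e + D (tgt e))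
    (H4 : v ∈ A → (∃ e, src e = v ∧ tgt e ∈ F ∧ c ≤ r2 e + Θ (tgt e)) ∨
      (∃ e, src e = v ∧ tgt e ∉ F))
    (H5 : ∀ w ∈ F, Θ w ≤ c)
    (H5a : ∀ e, src e ∉ F → src e ≠ v → src e ∉ A → tgt e ∈ F → c ≤ r2 e + Θ (tgt e))
    (H5b : ∀ u, u ∉ F → u ≠ v → u ∈ A → (∀ e, src e = u → tgt e ∈ F) →
      ∃ e, src e = u ∧ c ≤ r2 e + Θ (tgt e))
    (H6 : v ∈ A → (∃ e, src e = v ∧ tgt e ∉ F) → ∀ e', src e' ∉ F → tgt e' ∈ F →
      r1 e1 + D (tgt e1) ≤ r1 e' + D (tgt e')) :
    St src tgt A t r1 r2 (insert v F) (update nxt v e1) (update Θ v c)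
      (update D v (r1 e1 + D (tgt e1))) (update L v (r2 e1 + L (tgt e1))) := by
  have hne : ∀ w ∈ F, w ≠ v := fun w hw h => hv (h ▸ hw)
  have uΘ : ∀ w ∈ F, update Θ v c w = Θ w := fun w hw => update_of_ne (hne w hw) _ _
  have uD : ∀ w ∈ F, update D v (r1 e1 + D (tgt e1)) w = D w :=
    fun w hw => update_of_ne (hne w hw) _ _
  have uL : ∀ w ∈ F, update L v (r2 e1 + L (tgt e1)) w = L w :=
    fun w hw => update_of_ne (hne w hw) _ _
  have uN : ∀ w ∈ F, update nxt v e1 w = nxt w := fun w hw => update_of_ne (hne w hw) _ _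
  have uΘv : update Θ v c v = c := update_self _ _ _
  have uDv : update D v (r1 e1 + D (tgt e1)) v = r1 e1 + D (tgt e1) := update_self _ _ _
  have uLv : update L v (r2 e1 + L (tgt e1)) v = r2 e1 + L (tgt e1) := update_self _ _ _
  have uNv : update nxt v e1 v = e1 := update_self _ _ _
  -- the distance of an open vertex is at most the new distance
  have hopen : ∀ u ∈ F, u ∈ A → (∃ e, src e = u ∧ tgt e ∉ F) → D u ≤ r1 e1 + D (tgt e1) :=
    fun u hu huA hex => S.s6 u hu huA hex e1 (hs ▸ hv) ht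
  refine ⟨Set.mem_insert_of_mem _ S.tF, ?_, ?_, ?_, ?_, ?_, ?_, ?_, ?_, ?_⟩
  · rw [uD t S.tF, S.Dt]
  · rw [uL t S.tF, S.Lt]
  · -- s1
    intro w hw hwt
    rcases hw with rfl | hw
    · rw [uNv, uDv, uLv, uΘv, uD _ ht, uL _ ht, uΘ _ ht]
      exact ⟨hs, Set.mem_insert_of_mem _ ht, rfl, rfl, H1⟩
    · obtain ⟨a1, a2, a3, a4, a5⟩ := S.s1 w hw hwt
      rw [uN w hw, uD w hw, uL w hw, uΘ w hw, uD _ a2, uL _ a2, uΘ _ a2]
      exact ⟨a1, Set.mem_insert_of_mem _ a2, a3, a4, a5⟩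
  · -- s2
    intro e he heA hte
    rcases he with he | he
    · rw [he, uΘv]
      rcases hte with hte | hte
      · rw [hte, uΘv]; linarith [h2 e]
      · rw [uΘ _ hte]; exact H2 (he ▸ heA) e he hte
    · rw [uΘ _ he]
      rcases hte with hte | hte
      · rw [hte, uΘv]; linarith [h2 e, H5 _ he]
      · rw [uΘ _ hte]; exact S.s2 e he heA hte
  · -- s3
    intro e he heA hte
    rcases he with he | he
    · rw [he, uDv]
      rcases hte with hte | hte
      · rw [hte, uDv]; linarith [h1 e]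
      · rw [uD _ hte]; exact H3 (he ▸ heA) e he hte
    · rw [uD _ he]
      rcases hte with hte | hte
      · rw [hte, uDv]
        have := hopen _ he heA ⟨e, rfl, hte ▸ hv⟩
        linarith [h1 e]
      · rw [uD _ hte]; exact S.s3 e he heA hte
  · -- s4
    intro u hu huA
    rcases hu with rfl | hu
    · rcases H4 huA with ⟨e, he, hte, hc⟩ | ⟨e, he, hte⟩
      · left; exact ⟨e, he, Set.mem_insert_of_mem _ hte, by rw [uΘv, uΘ _ hte]; exact hc⟩
      · by_cases hev : tgt e = u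
        · left; exact ⟨e, he, Or.inl hev, by rw [hev, uΘv]; linarith [h2 e]⟩
        · right; exact ⟨e, he, by rintro (h | h); exacts [hev h, hte h]⟩
    · rcases S.s4 u hu huA with ⟨e, he, hte, hc⟩ | ⟨e, he, hte⟩
      · left; exact ⟨e, he, Set.mem_insert_of_mem _ hte, by rw [uΘ _ hu, uΘ _ hte]; exact hc⟩
      · by_cases hev : tgt e = v
        · left; exact ⟨e, he, Or.inl hev, by rw [hev, uΘv, uΘ _ hu]; linarith [h2 e, H5 u hu]⟩
        · right; exact ⟨e, he, by rintro (h | h); exacts [hev h, hte h]⟩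
  · -- s5a
    intro e he heA hte w hw
    have he1 : src e ≠ v := fun h => he (Or.inl h)
    have he2 : src e ∉ F := fun h => he (Or.inr h)
    have hwc : update Θ v c w ≤ c := by
      rcases hw with rfl | hw
      · rw [uΘv]
      · rw [uΘ _ hw]; exact H5 w hw
    refine hwc.trans ?_
    rcases hte with hte | hte
    · rw [hte, uΘv]; linarith [h2 e]
    · rw [uΘ _ hte]; exact H5a e he2 he1 heA hte
  · -- s5b
    intro u hu huA hall w hw
    have hu1 : u ≠ v := fun h => hu (Or.inl h)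
    have hu2 : u ∉ F := fun h => hu (Or.inr h)
    have hwc : update Θ v c w ≤ c := by
      rcases hw with rfl | hw
      · rw [uΘv]
      · rw [uΘ _ hw]; exact H5 w hw
    by_cases hex : ∃ e, src e = u ∧ tgt e = v
    · obtain ⟨e, he, hte⟩ := hex
      exact ⟨e, he, by rw [hte, uΘv]; linarith [h2 e]⟩
    · have hall' : ∀ e, src e = u → tgt e ∈ F := by
        intro e he
        rcases hall e he with h | h
        · exact absurd ⟨e, he, h⟩ hex
        · exact h
      obtain ⟨e, he, hc⟩ := H5b u hu2 hu1 huA hall'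
      exact ⟨e, he, by rw [uΘ _ (hall' e he)]; linarith⟩
  · -- s6
    intro u hu huA hex e' he' hte'
    have he1 : src e' ≠ v := fun h => he' (Or.inl h)
    have he2 : src e' ∉ F := fun h => he' (Or.inr h)
    obtain ⟨e, he, hte⟩ := hex
    have hteF : tgt e ∉ F := fun h => hte (Or.inr h)
    rcases hu with rfl | hu
    · rw [uDv]
      rcases hte' with h | h
      · rw [h, uDv]; linarith [h1 e']
      · rw [uD _ h]; exact H6 huA ⟨e, he, hteF⟩ e' he2 h
    · rw [uD _ hu]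
      rcases hte' with h | h
      · rw [h, uDv]
        have := hopen u hu huA ⟨e, he, hteF⟩
        linarith [h1 e']
      · rw [uD _ h]; exact S.s6 u hu huA ⟨e, he, hteF⟩ e' he2 h

/-- One more vertex can always be settled. -/
theorem St.step [Finite V] [Finite E] {src tgt : E → V} {A : Set V} {t : V} {r1 r2 : E → ℝ}
    {F : Set V} {nxt : V → E} {Θ D L : V → ℝ} (h1 : ∀ e, 0 < r1 e) (h2 : ∀ e, 0 < r2 e)
    (hout : ∀ v, v ≠ t → ∃ e, src e = v)
    (S : St src tgt A t r1 r2 F nxt Θ D L) (hcross : ∃ e, src e ∉ F ∧ tgt e ∈ F) :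
    ∃ (v : V) (nxt' : V → E) (Θ' D' L' : V → ℝ), v ∉ F ∧
      St src tgt A t r1 r2 (insert v F) nxt' Θ' D' L' := by
  classical
  -- candidate edges
  let C : Set E := {e | src e ∉ F ∧ tgt e ∈ F ∧
    ((src e ∉ A ∧ ∀ e', src e' = src e → tgt e' ∈ F → r2 e + Θ (tgt e) ≤ r2 e' + Θ (tgt e')) ∨
     (src e ∈ A ∧ ∀ e', src e' = src e → tgt e' ∈ F ∧ r2 e' + Θ (tgt e') ≤ r2 e + Θ (tgt e)))}
  -- a vertex of player two with an edge into `F` gives a candidate
  have hC2 : ∀ e, src e ∉ F → src e ∉ A → tgt e ∈ F → ∃ e0 ∈ C, src e0 = src e := by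
    intro e he heA hte
    obtain ⟨e0, ⟨he0, hte0⟩, hmin⟩ := Set.exists_min_image {e' | src e' = src e ∧ tgt e' ∈ F}
      (fun e' => r2 e' + Θ (tgt e')) (Set.toFinite _) ⟨e, rfl, hte⟩
    refine ⟨e0, ⟨he0 ▸ he, hte0, Or.inl ⟨he0 ▸ heA, ?_⟩⟩, he0⟩
    intro e' he' hte'
    exact hmin e' ⟨he'.trans he0, hte'⟩
  -- a vertex of player one with all edges into `F` gives a candidate
  have hC1 : ∀ u, u ∉ F → u ∈ A → (∀ e, src e = u → tgt e ∈ F) → ∃ e0 ∈ C, src e0 = u := by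
    intro u hu huA hall
    have hut : u ≠ t := fun h => hu (h ▸ S.tF)
    obtain ⟨e, he⟩ := hout u hut
    obtain ⟨e0, he0, hmax⟩ := Set.exists_max_image {e' | src e' = u}
      (fun e' => r2 e' + Θ (tgt e')) (Set.toFinite _) ⟨e, he⟩
    have he0' : src e0 = u := he0
    refine ⟨e0, ⟨he0'.symm ▸ hu, hall e0 he0, Or.inr ⟨he0'.symm ▸ huA, ?_⟩⟩, he0⟩
    intro e' he'
    have he'' : src e' = u := he'.trans he0'
    exact ⟨hall e' he'', hmax e' he''⟩
  by_cases hCne : C.Nonempty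
  · obtain ⟨e0, ⟨he0F, hte0, he0⟩, hmin⟩ := Set.exists_min_image C (fun e => r2 e + Θ (tgt e))
      (Set.toFinite _) hCne
    -- the edge followed by the new vertex
    obtain ⟨e1, he1, hte1, hv1, hv2⟩ : ∃ e1, src e1 = src e0 ∧ tgt e1 ∈ F ∧
        r2 e1 + Θ (tgt e1) ≤ r2 e0 + Θ (tgt e0) ∧
        (src e0 ∈ A → ∀ e, src e = src e0 → tgt e ∈ F → r1 e1 + D (tgt e1) ≤ r1 e + D (tgt e)) := by
      rcases he0 with ⟨hA, _⟩ | ⟨hA, hall⟩
      · exact ⟨e0, rfl, hte0, le_refl _, fun h => absurd h hA⟩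
      · obtain ⟨e1, he1, hmin1⟩ := Set.exists_min_image {e' | src e' = src e0}
          (fun e' => r1 e' + D (tgt e')) (Set.toFinite _) ⟨e0, rfl⟩
        have he1' : src e1 = src e0 := he1
        exact ⟨e1, he1', (hall e1 he1').1, (hall e1 he1').2, fun _ e he _ => hmin1 e he⟩
    refine ⟨src e0, _, _, _, _, he0F, S.add h1 h2 (src e0) e1 (r2 e0 + Θ (tgt e0)) he0F he1 hte1 hv1
      ?_ hv2 ?_ ?_ ?_ ?_ ?_⟩
    · intro hA e he hte
      rcases he0 with ⟨_, h⟩ | ⟨h, _⟩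
      · exact h e he hte
      · exact absurd h hA
    · intro _
      exact Or.inl ⟨e0, rfl, hte0, le_refl _⟩
    · intro w hw
      by_cases hA : src e0 ∈ A
      · rcases he0 with ⟨h, _⟩ | ⟨_, hall⟩
        · exact absurd hA h
        · obtain ⟨e, he, hc⟩ := S.s5b (src e0) he0F hA (fun e he => (hall e he).1) w hw
          exact hc.trans (hall e he).2
      · exact S.s5a e0 he0F hA hte0 w hw
    · intro e he _ heA hte
      obtain ⟨e', he'C, he'⟩ := hC2 e he heA hte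
      have h3 : r2 e' + Θ (tgt e') ≤ r2 e + Θ (tgt e) := by
        rcases he'C.2.2 with ⟨_, h⟩ | ⟨h, _⟩
        · exact h e he'.symm hte
        · exact absurd (he' ▸ h) heA
      exact (hmin e' he'C).trans h3
    · intro u hu _ huA hall
      obtain ⟨e', he'C, he'⟩ := hC1 u hu huA hall
      exact ⟨e', he', hmin e' he'C⟩
    · intro hA ⟨e, he, hte⟩
      rcases he0 with ⟨h, _⟩ | ⟨_, hall⟩
      · exact absurd hA h
      · exact absurd (hall e he).1 hte
  · -- no candidates: a vertex of player one concedes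
    rw [Set.not_nonempty_iff_eq_empty] at hCne
    have hno : ∀ e, e ∉ C := fun e => by rw [hCne]; exact Set.notMem_empty e
    obtain ⟨e0, ⟨he0, hte0⟩, hmin⟩ := Set.exists_min_image {e | src e ∉ F ∧ tgt e ∈ F}
      (fun e => r1 e + D (tgt e)) (Set.toFinite _) hcross
    have hA0 : ∀ e, src e ∉ F → tgt e ∈ F → src e ∈ A := by
      intro e he hte
      by_contra hA
      obtain ⟨e', h, _⟩ := hC2 e he hA hte
      exact hno e' h
    obtain ⟨K, hK⟩ : ∃ K, ∀ w ∈ F, Θ w ≤ K := by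
      obtain ⟨K, hK⟩ := (Set.toFinite (Θ '' F)).bddAbove
      exact ⟨K, fun w hw => hK ⟨w, hw, rfl⟩⟩
    refine ⟨src e0, _, _, _, _, he0, S.add h1 h2 (src e0) e0 (max K (r2 e0 + Θ (tgt e0))) he0 rfl
      hte0 (le_max_right _ _) ?_ ?_ ?_ ?_ ?_ ?_ ?_⟩
    · intro hA
      exact absurd (hA0 e0 he0 hte0) hA
    · intro _ e he hte
      exact hmin e ⟨he ▸ he0, hte⟩
    · intro hA
      right
      by_contra hcon
      push Not at hcon
      obtain ⟨e', h, _⟩ := hC1 (src e0) he0 hA hcon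
      exact hno e' h
    · intro w hw
      exact (hK w hw).trans (le_max_left _ _)
    · intro e he _ heA hte
      exact absurd (hA0 e he hte) heA
    · intro u hu _ huA hall
      obtain ⟨e', h, _⟩ := hC1 u hu huA hall
      exact absurd h (hno e')
    · intro _ _ e' he' hte'
      exact hmin e' ⟨he', hte'⟩

/-- The certificate exists on the whole vertex set. -/
theorem exists_certificate [Finite V] [Finite E] {src tgt : E → V} {A : Set V} {t : V}
    {r1 r2 : E → ℝ} (h1 : ∀ e, 0 < r1 e) (h2 : ∀ e, 0 < r2 e)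
    (hE : Nonempty E) (htA : t ∉ A) (hsrc : ∀ e, src e ≠ t)
    (hout : ∀ v, v ≠ t → ∃ e, src e = v)
    (hcross : ∀ F : Set V, t ∈ F → F ≠ Set.univ → ∃ e, src e ∉ F ∧ tgt e ∈ F) :
    ∃ (nxt : V → E) (Θ D L : V → ℝ), St src tgt A t r1 r2 Set.univ nxt Θ D L := by
  have key : ∀ n : ℕ, ∀ (F : Set V) (nxt : V → E) (Θ D L : V → ℝ), Fᶜ.ncard = n →
      St src tgt A t r1 r2 F nxt Θ D L →
      ∃ (nxt : V → E) (Θ D L : V → ℝ), St src tgt A t r1 r2 Set.univ nxt Θ D L := by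
    intro n
    induction n using Nat.strong_induction_on with
    | _ n ih =>
      intro F nxt Θ D L hn S
      by_cases hF : F = Set.univ
      · exact ⟨nxt, Θ, D, L, hF ▸ S⟩
      · obtain ⟨v, nxt', Θ', D', L', hv, S'⟩ := S.step h1 h2 hout (hcross F S.tF hF)
        refine ih (insert v F)ᶜ.ncard ?_ (insert v F) nxt' Θ' D' L' rfl S'
        rw [← hn]
        apply Set.ncard_lt_ncard _ (Set.toFinite _)
        constructor
        · intro x hx hxF
          exact hx (Or.inr hxF)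
        · intro h
          exact h hv (Or.inl rfl)
  obtain ⟨e0⟩ := hE
  refine key _ {t} (fun _ => e0) 0 0 0 rfl ⟨rfl, rfl, rfl, ?_, ?_, ?_, ?_, ?_, ?_, ?_⟩
  · intro v hv hvt
    exact absurd hv hvt
  · intro e he
    exact absurd he (hsrc e)
  · intro e he
    exact absurd he (hsrc e)
  · intro u hu huA
    rw [Set.mem_singleton_iff] at hu
    exact absurd (hu ▸ huA) htA
  · intro e _ _ _ v _
    simp only [Pi.zero_apply, add_zero]
    exact (h2 e).le
  · intro u hu _ _ v _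
    obtain ⟨e, he⟩ := hout u (fun h => hu h)
    refine ⟨e, he, ?_⟩
    simp only [Pi.zero_apply, add_zero]
    exact (h2 e).le
  · intro u hu huA
    rw [Set.mem_singleton_iff] at hu
    exact absurd (hu ▸ huA) htA

end Pool.Agent.Lib.MP_9736fa_co
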