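import Mathlib

/-!
# Two-person shortest path games: definitions

A finite directed graph is given by a finite type `V` of vertices, a finite type `E` of edges and
the maps `src tgt : E → V` giving the tail and the head of each edge. Parallel edges are allowed, so
ordinary digraphs are the special case in which `e ↦ (src e, tgt e)` is injective.
-/

namespace Pool.Agent.Lib.MP_9736fa_co

/-- `IsWalk src tgt a b p`: the list of edges `p` is a directed walk from `a` to `b`. -/
def IsWalk {V E : Type*} (src tgt : E → V) : V → V → List E → Prop
  | a, b, [] => a = b
  | a, b, e :: p => src e = a ∧ IsWalk src tgt (tgt e) b p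

/-- `IsPath src tgt a b p`: the list of edges `p` is a directed `(a, b)`-path, that is, a directed
walk from `a` to `b` whose vertices (`a` followed by the heads of its edges) are distinct. -/
def IsPath {V E : Type*} (src tgt : E → V) (a b : V) (p : List E) : Prop :=
  IsWalk src tgt a b p ∧ (a :: p.map tgt).Nodup

/-- A two-person shortest path game on the directed graph with vertex set `V` and edge set `E`.
The players are `0` and `1` (players 1 and 2 of the problem). -/
structure SPGame (V E : Type*) where
  /-- the tail of an edge -/
  src : E → V
  /-- the head of an edge -/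
  tgt : E → V
  /-- the initial vertex -/
  s : V
  /-- the terminal vertex -/
  t : V
  s_ne_t : s ≠ t
  /-- every vertex other than `t` has an outgoing edge -/
  exists_out : ∀ v, v ≠ t → ∃ e, src e = v
  /-- `t` has no outgoing edge -/
  no_out : ∀ e, src e ≠ t
  /-- there is a directed `(s, t)`-path -/
  exists_path : ∃ p, IsPath src tgt s t p
  /-- every edge lies on some directed `(s, t)`-path -/
  edge_on_path : ∀ e, ∃ p, IsPath src tgt s t p ∧ e ∈ p
  /-- `part i` is the set of vertices controlled by player `i` -/
  part : Fin 2 → Set V
  part_nonempty : ∀ i, (part i).Nonempty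
  part_disjoint : Disjoint (part 0) (part 1)
  part_union : part 0 ∪ part 1 = {v | v ≠ t}
  /-- `r i e` is the local cost of the edge `e` for player `i` -/
  r : Fin 2 → E → ℝ
  r_pos : ∀ i e, 0 < r i e

namespace SPGame

variable {V E : Type*} (G : SPGame V E)

/-- A strategy of player `i` selects an edge leaving `v` for each vertex `v` controlled by `i`. -/
def Strategy (i : Fin 2) : Type _ := {σ : G.part i → E // ∀ v, G.src (σ v) = v}

/-- `G.IsPathIn i σ p`: `p` is a directed `(s, t)`-path of the graph obtained from `G` by deleting,
at every vertex `v` controlled by player `i`, all outgoing edges other than `σ v`. -/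
def IsPathIn (i : Fin 2) (σ : G.Strategy i) (p : List E) : Prop :=
  IsPath G.src G.tgt G.s G.t p ∧ ∀ e ∈ p, ∀ h : G.src e ∈ G.part i, e = σ.1 ⟨G.src e, h⟩

/-- The `r_j`-length of a path: the sum of `r_j` over its edges. -/
def length (j : Fin 2) (p : List E) : ℝ := (p.map (G.r j)).sum

/-- `G.bestPaths i j` for `{i, j} = {0, 1}`: the set of directed `(s, t)`-paths `P` such that, for
some strategy `σ` of player `i`, `P` lies in `G_σ` and has minimum `r_j`-length among all directed
`(s, t)`-paths of `G_σ`. -/
def bestPaths (i j : Fin 2) : Set (List E) :=
  {P | ∃ σ : G.Strategy i, G.IsPathIn i σ P ∧ ∀ Q, G.IsPathIn i σ Q → G.length j P ≤ G.length j Q}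

/-- The bi-shortest paths: the members of both families `𝒫₁` and `𝒫₂` of the problem. -/
def biShortestPaths : Set (List E) := G.bestPaths 0 1 ∩ G.bestPaths 1 0

end SPGame

end Pool.Agent.Lib.MP_9736fa_co
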