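import Pool.Agent.Lib.MP_9736fa_co.Core

/-!
# From the certificate to a bi-shortest path
-/

namespace Pool.Agent.Lib.MP_9736fa_co

open Function Relation

variable {V E : Type*}

theorem isWalk_reach {src tgt : E → V} {b : V} :
    ∀ (p : List E) (a : V), IsWalk src tgt a b p → ∀ F : Set V, a ∉ F → b ∈ F →
      ∃ e ∈ p, src e ∉ F ∧ tgt e ∈ F := by
  intro p
  induction p with
  | nil =>
    intro a h F ha hb
    have h' : a = b := h
    exact absurd (h' ▸ hb) ha
  | cons e p ih =>
    intro a h F ha hb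
    obtain ⟨he, hp⟩ := h
    by_cases hte : tgt e ∈ F
    · exact ⟨e, by simp, he ▸ ha, hte⟩
    · obtain ⟨e', he', h1, h2⟩ := ih (tgt e) hp F hte hb
      exact ⟨e', by simp [he'], h1, h2⟩

/-- A walk through an edge `e` contains a walk from the head of `e`. -/
theorem isWalk_suffix {src tgt : E → V} {b : V} :
    ∀ (p : List E) (a : V), IsWalk src tgt a b p → ∀ e ∈ p,
      ∃ q, IsWalk src tgt (tgt e) b q := by
  intro p
  induction p with
  | nil => intro a _ e he; simp at he
  | cons e0 p ih =>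
    intro a h e he
    rcases List.mem_cons.1 he with rfl | he
    · exact ⟨p, h.2⟩
    · exact ih _ h.2 e he

/-- The successor relation on vertices. -/
def Nx (tgt : E → V) (t : V) (nxt : V → E) (a b : V) : Prop := a ≠ t ∧ b = tgt (nxt a)

theorem Nx.rightUnique (tgt : E → V) (t : V) (nxt : V → E) :
    Relator.RightUnique (Nx tgt t nxt) := by
  intro a b c h1 h2
  rw [h1.2, h2.2]

section

variable {src tgt : E → V} {A : Set V} {t : V} {r1 r2 : E → ℝ} {nxt : V → E} {Θ D L : V → ℝ}

/-- Comparison along the successor relation. -/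
theorem reach_le (h2 : ∀ e, 0 < r2 e)
    (S : St src tgt A t r1 r2 Set.univ nxt Θ D L) {a b : V}
    (h : ReflTransGen (Nx tgt t nxt) a b) : L b ≤ L a ∧ L a - L b ≤ Θ a - Θ b := by
  induction h with
  | refl => exact ⟨le_refl _, by linarith⟩
  | @tail c d _ hbc ih =>
    obtain ⟨hbt, rfl⟩ := hbc
    obtain ⟨_, _, _, a4, a5⟩ := S.s1 c (Set.mem_univ _) hbt
    have := h2 (nxt c)
    exact ⟨by linarith [ih.1], by linarith [ih.2]⟩

/-- The route from a vertex to `t` along the successor edges. -/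
theorem exists_route [Finite V] (h1 : ∀ e, 0 < r1 e)
    (S : St src tgt A t r1 r2 Set.univ nxt Θ D L) (v : V) :
    ∃ p : List E, IsWalk src tgt v t p ∧ (∀ x ∈ p.map tgt, D x < D v) ∧
      (v :: p.map tgt).Nodup ∧ (p.map r1).sum = D v ∧ (p.map r2).sum = L v ∧
      (∀ e ∈ p, e = nxt (src e) ∧ ReflTransGen (Nx tgt t nxt) v (src e)) ∧
      ReflTransGen (Nx tgt t nxt) v t := by
  have wf : WellFounded (fun x y : V => D x < D y) :=
    @Finite.wellFounded_of_trans_of_irrefl V _ (fun x y => D x < D y)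
      ⟨fun a b c hab hbc => lt_trans hab hbc⟩ ⟨fun a => lt_irrefl _⟩
  induction v using wf.induction with
  | _ v ih =>
    by_cases hvt : v = t
    · subst hvt
      refine ⟨[], rfl, by simp, by simp, ?_, ?_, by simp, ReflTransGen.refl⟩
      · rw [List.map_nil, List.sum_nil, S.Dt]
      · rw [List.map_nil, List.sum_nil, S.Lt]
    · obtain ⟨a1, _, a3, a4, _⟩ := S.s1 v (Set.mem_univ _) hvt
      have hlt : D (tgt (nxt v)) < D v := by linarith [h1 (nxt v)]
      obtain ⟨p, hp, hD, hnd, hl1, hl2, he, hr⟩ := ih (tgt (nxt v)) hlt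
      have hstep : Nx tgt t nxt v (tgt (nxt v)) := ⟨hvt, rfl⟩
      have hlt' : ∀ x ∈ (nxt v :: p).map tgt, D x < D v := by
        intro x hx
        rw [List.map_cons, List.mem_cons] at hx
        rcases hx with rfl | hx
        · exact hlt
        · exact (hD x hx).trans hlt
      refine ⟨nxt v :: p, ⟨a1, hp⟩, hlt', ?_, ?_, ?_, ?_, ReflTransGen.head hstep hr⟩
      · refine List.nodup_cons.2 ⟨fun hmem => lt_irrefl _ (hlt' v hmem), ?_⟩
        exact hnd
      · rw [List.map_cons, List.sum_cons, hl1, a3]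
      · rw [List.map_cons, List.sum_cons, hl2, a4]
      · intro e hmem
        rcases List.mem_cons.1 hmem with rfl | hmem
        · rw [a1]; exact ⟨rfl, ReflTransGen.refl⟩
        · exact ⟨(he e hmem).1, ReflTransGen.head hstep (he e hmem).2⟩

/-- Lower bound on the `r1`-length of a walk that follows `nxt` off `A`. -/
theorem walk_r1 (S : St src tgt A t r1 r2 Set.univ nxt Θ D L) (hsrc : ∀ e, src e ≠ t) :
    ∀ (q : List E) (v : V), IsWalk src tgt v t q → (∀ e ∈ q, src e ∉ A → e = nxt (src e)) →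
      D v ≤ (q.map r1).sum := by
  intro q
  induction q with
  | nil =>
    intro v h _
    have h' : v = t := h
    rw [h', S.Dt, List.map_nil, List.sum_nil]
  | cons e q ih =>
    intro v h hq
    obtain ⟨rfl, hw⟩ := h
    have hI := ih (tgt e) hw (fun e' he' => hq e' (List.mem_cons_of_mem _ he'))
    rw [List.map_cons, List.sum_cons]
    by_cases hA : src e ∈ A
    · have := S.s3 e (Set.mem_univ _) hA (Set.mem_univ _)
      linarith
    · have he := hq e List.mem_cons_self hA
      obtain ⟨_, _, a3, _, _⟩ := S.s1 (src e) (Set.mem_univ _) (hsrc e)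
      rw [← he] at a3
      linarith

/-- Lower bound on the `r2`-length of a walk in which player one follows `nxt` on the route of `s`
and an edge that is not decreasing for `Θ` off this route. -/
theorem walk_r2 (h2 : ∀ e, 0 < r2 e) (S : St src tgt A t r1 r2 Set.univ nxt Θ D L)
    (hsrc : ∀ e, src e ≠ t) (s : V) (hst : ReflTransGen (Nx tgt t nxt) s t) :
    ∀ (q : List E) (v : V), IsWalk src tgt v t q →
      (∀ e ∈ q, src e ∈ A → (ReflTransGen (Nx tgt t nxt) s (src e) ∧ e = nxt (src e)) ∨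
        (Θ (src e) ≤ r2 e + Θ (tgt e))) →
      ∃ y, ReflTransGen (Nx tgt t nxt) s y ∧ max 0 (Θ v - Θ y) + L y ≤ (q.map r2).sum := by
  -- comparison of two vertices on the route
  have hcmp : ∀ x y, ReflTransGen (Nx tgt t nxt) s x → ReflTransGen (Nx tgt t nxt) s y →
      L x ≤ max 0 (Θ x - Θ y) + L y := by
    intro x y hx hy
    rcases ReflTransGen.total_of_right_unique (Nx.rightUnique tgt t nxt) hx hy with h | h
    · have := (reach_le h2 S h).2
      linarith [le_max_right 0 (Θ x - Θ y)]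
    · have := (reach_le h2 S h).1
      linarith [le_max_left 0 (Θ x - Θ y)]
  intro q
  induction q with
  | nil =>
    intro v h _
    have h' : v = t := h
    refine ⟨t, hst, ?_⟩
    rw [h', sub_self, max_self, S.Lt, List.map_nil, List.sum_nil, add_zero]
  | cons e q ih =>
    intro v h hq
    obtain ⟨rfl, hw⟩ := h
    obtain ⟨y, hy, hle⟩ := ih (tgt e) hw (fun e' he' => hq e' (List.mem_cons_of_mem _ he'))
    rw [List.map_cons, List.sum_cons]
    have hmain : Θ (src e) ≤ r2 e + Θ (tgt e) →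
        ∃ y, ReflTransGen (Nx tgt t nxt) s y ∧
          max 0 (Θ (src e) - Θ y) + L y ≤ r2 e + (q.map r2).sum := by
      intro hΘ
      refine ⟨y, hy, ?_⟩
      have : max 0 (Θ (src e) - Θ y) ≤ r2 e + max 0 (Θ (tgt e) - Θ y) := by
        apply max_le
        · linarith [le_max_left 0 (Θ (tgt e) - Θ y), h2 e]
        · linarith [le_max_right 0 (Θ (tgt e) - Θ y)]
      linarith
    by_cases hA : src e ∈ A
    · rcases hq e List.mem_cons_self hA with ⟨hr, he⟩ | hΘ
      · obtain ⟨_, _, _, a4, _⟩ := S.s1 (src e) (Set.mem_univ _) (hsrc e)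
        rw [← he] at a4
        have hr' : ReflTransGen (Nx tgt t nxt) s (tgt e) := by
          refine hr.tail ⟨hsrc e, ?_⟩
          rw [← he]
        refine ⟨src e, hr, ?_⟩
        rw [sub_self, max_self, zero_add, a4]
        have := hcmp (tgt e) y hr' hy
        linarith
      · exact hmain hΘ
    · exact hmain (S.s2 e (Set.mem_univ _) hA (Set.mem_univ _))

end

/-- Every two-person shortest path game has a bi-shortest path. -/
theorem biShortest [Finite V] [Finite E] (G : SPGame V E) : G.biShortestPaths.Nonempty := by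
  classical
  have htA : G.t ∉ G.part 0 := by
    intro h
    have : G.t ∈ G.part 0 ∪ G.part 1 := Or.inl h
    rw [G.part_union] at this
    exact this rfl
  have htB : G.t ∉ G.part 1 := by
    intro h
    have : G.t ∈ G.part 0 ∪ G.part 1 := Or.inr h
    rw [G.part_union] at this
    exact this rfl
  have hcover : ∀ v, v ≠ G.t → v ∈ G.part 0 ∨ v ∈ G.part 1 := by
    intro v hv
    have : v ∈ G.part 0 ∪ G.part 1 := by rw [G.part_union]; exact hv
    exact this
  have hdisj : ∀ v, v ∈ G.part 0 → v ∉ G.part 1 := fun v h0 h1 =>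
    Set.disjoint_left.1 G.part_disjoint h0 h1
  have hE : Nonempty E := by
    obtain ⟨e, _⟩ := G.exists_out G.s G.s_ne_t
    exact ⟨e⟩
  have hcross : ∀ F : Set V, G.t ∈ F → F ≠ Set.univ → ∃ e, G.src e ∉ F ∧ G.tgt e ∈ F := by
    intro F htF hF
    obtain ⟨v, hv⟩ := (Set.ne_univ_iff_exists_notMem F).1 hF
    have hvt : v ≠ G.t := fun h => hv (h ▸ htF)
    obtain ⟨e, he⟩ := G.exists_out v hvt
    by_cases hte : G.tgt e ∈ F
    · exact ⟨e, he ▸ hv, hte⟩
    · obtain ⟨p, hp, hep⟩ := G.edge_on_path e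
      obtain ⟨q, hq⟩ := isWalk_suffix p G.s hp.1 e hep
      obtain ⟨e', _, h1, h2⟩ := isWalk_reach q _ hq F hte htF
      exact ⟨e', h1, h2⟩
  obtain ⟨nxt, Θ, D, L, S⟩ := exists_certificate (A := G.part 0) (G.r_pos 0) (G.r_pos 1) hE htA
    G.no_out G.exists_out hcross
  obtain ⟨p, hp, _, hnd, hl1, hl2, hpe, hst⟩ := exists_route (G.r_pos 0) S G.s
  have hpath : IsPath G.src G.tgt G.s G.t p := ⟨hp, hnd⟩
  -- the strategy of player two follows `nxt`
  have hσ2 : ∀ v : G.part 1, G.src (nxt v) = v := fun v =>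
    (S.s1 v (Set.mem_univ _) (fun h => htB (h ▸ v.2))).1
  -- the strategy of player one: `nxt` on the route, a punishing edge elsewhere
  have hpun : ∀ v : G.part 0, ∃ e, G.src e = v ∧
      ((ReflTransGen (Nx G.tgt G.t nxt) G.s v ∧ e = nxt v) ∨
        (¬ ReflTransGen (Nx G.tgt G.t nxt) G.s v ∧ Θ v ≤ G.r 1 e + Θ (G.tgt e))) := by
    intro v
    by_cases hv : ReflTransGen (Nx G.tgt G.t nxt) G.s v
    · exact ⟨nxt v, (S.s1 v (Set.mem_univ _) (fun h => htA (h ▸ v.2))).1, Or.inl ⟨hv, rfl⟩⟩
    · rcases S.s4 v (Set.mem_univ _) v.2 with ⟨e, he, _, hc⟩ | ⟨e, _, h⟩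
      · exact ⟨e, he, Or.inr ⟨hv, hc⟩⟩
      · exact absurd (Set.mem_univ _) h
  choose τ hτ1 hτ2 using hpun
  refine ⟨p, ?_, ?_⟩
  · -- `p` is `r 1`-shortest in `G_τ`
    refine ⟨⟨τ, hτ1⟩, ⟨hpath, ?_⟩, ?_⟩
    · intro e he h
      obtain ⟨h1, h2⟩ := hpe e he
      rcases hτ2 ⟨G.src e, h⟩ with ⟨_, h3⟩ | ⟨h3, _⟩
      · exact h1.trans h3.symm
      · exact absurd h2 h3
    · intro q hq
      obtain ⟨y, hy, hle⟩ := walk_r2 (G.r_pos 1) S G.no_out G.s hst q G.s hq.1.1 (by
        intro e he hA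
        have heq := hq.2 e he hA
        rcases hτ2 ⟨G.src e, hA⟩ with ⟨h3, h4⟩ | ⟨_, h4⟩
        · left
          exact ⟨h3, heq.trans h4⟩
        · right
          have heq' : τ ⟨G.src e, hA⟩ = e := heq.symm
          rw [heq'] at h4
          exact h4)
      have h5 : L G.s ≤ max 0 (Θ G.s - Θ y) + L y := by
        have := (reach_le (G.r_pos 1) S hy).2
        linarith [le_max_right 0 (Θ G.s - Θ y)]
      calc G.length 1 p = L G.s := hl2
        _ ≤ _ := h5
        _ ≤ _ := hle
  · -- `p` is `r 0`-shortest in `G_σ`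
    refine ⟨⟨fun v => nxt v, hσ2⟩, ⟨hpath, fun e he h => (hpe e he).1⟩, ?_⟩
    intro q hq
    have := walk_r1 S G.no_out q G.s hq.1.1 (by
      intro e he hA
      have hB : G.src e ∈ G.part 1 := by
        rcases hcover _ (G.no_out e) with h | h
        · exact absurd h hA
        · exact h
      exact hq.2 e he hB)
    calc G.length 0 p = D G.s := hl1
      _ ≤ _ := this

end Pool.Agent.Lib.MP_9736fa_co
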